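import Pool.Agent.H29.BH.Targets1

/-!
# MP_52e316_nt: a fundamental domain for the scaled lattice (module K_UF of `bh_modules`)
-/

set_option autoImplicit false

open NumberField NumberField.InfinitePlace MeasureTheory Set Filter Complex
open scoped nonZeroDivisors ENNReal

namespace Pool.Agent.H46.BH

open Pool.Agent.H25.HK Pool.Agent.H29.DW Pool.Agent.H29.BH

section NF

variable {K : Type} [Field K] [NumberField K]

/-- the scaled embedding as an additive homomorphism -/
noncomputable def sh (y : InfinitePlace K → ℝ) : K →+ (InfinitePlace K → ℂ) where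
  toFun := sy y
  map_zero' := by
    funext v
    simp [sy]
  map_add' := fun a b => by
    funext v
    simp [sy, add_mul]

theorem sh_inj (y : InfinitePlace K → ℝ) : Function.Injective (sh y) := by
  intro a b hab
  obtain ⟨v⟩ : Nonempty (InfinitePlace K) := inferInstance
  have h1 : sy y a v = sy y b v := congrFun hab v
  have h2 : ((Real.exp (y v / 2) : ℝ) : ℂ) ≠ 0 := by
    exact_mod_cast (Real.exp_pos _).ne'
  exact v.embedding.injective (mul_right_cancel₀ h2 h1)

open scoped Classical in
/-- the isomorphism of the mixed space onto the real positions, scaled -/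
noncomputable def Tm (y : InfinitePlace K → ℝ) :
    mixedEmbedding.mixedSpace K →ₗ[ℝ] (InfinitePlace K → ℂ) where
  toFun := fun x v => (if h : v.IsReal then ((x.1 ⟨v, h⟩ : ℝ) : ℂ)
    else x.2 ⟨v, not_isReal_iff_isComplex.1 h⟩) * ((Real.exp (y v / 2) : ℝ) : ℂ)
  map_add' := fun a b => by
    funext v
    by_cases h : v.IsReal
    · simp only [h, dif_pos, Prod.fst_add, Pi.add_apply, Complex.ofReal_add, add_mul]
    · simp only [h, not_false_iff, dif_neg, Prod.snd_add, Pi.add_apply, add_mul]
  map_smul' := fun c a => by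
    funext v
    by_cases h : v.IsReal
    · simp only [h, dif_pos, Prod.smul_fst, Pi.smul_apply, smul_eq_mul, Complex.ofReal_mul,
        RingHom.id_apply, Complex.real_smul, mul_assoc]
    · simp only [h, not_false_iff, dif_neg, Prod.smul_snd, Pi.smul_apply,
        RingHom.id_apply, Complex.real_smul, mul_assoc]

omit [NumberField K] in
theorem Tm_real (y : InfinitePlace K → ℝ) (x : mixedEmbedding.mixedSpace K) (v : InfinitePlace K)
    (h : v.IsReal) : Tm y x v = ((x.1 ⟨v, h⟩ : ℝ) : ℂ) * ((Real.exp (y v / 2) : ℝ) : ℂ) := by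
  simp only [Tm, LinearMap.coe_mk, AddHom.coe_mk, h, dif_pos]

omit [NumberField K] in
theorem Tm_cplx (y : InfinitePlace K → ℝ) (x : mixedEmbedding.mixedSpace K) (v : InfinitePlace K)
    (h : v.IsComplex) : Tm y x v = x.2 ⟨v, h⟩ * ((Real.exp (y v / 2) : ℝ) : ℂ) := by
  have h' : ¬ v.IsReal := not_isReal_iff_isComplex.2 h
  simp only [Tm, LinearMap.coe_mk, AddHom.coe_mk, h', not_false_iff, dif_neg]

theorem Tm_emb (y : InfinitePlace K → ℝ) (x : K) : Tm y (mixedEmbedding K x) = sh y x := by
  funext v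
  rcases v.isReal_or_isComplex with h | h
  · rw [Tm_real y _ v h]
    change _ = v.embedding x * _
    rw [mixedEmbedding.mixedEmbedding_apply_isReal, embedding_of_isReal_apply]
  · rw [Tm_cplx y _ v h]
    change _ = v.embedding x * _
    rw [mixedEmbedding.mixedEmbedding_apply_isComplex]

theorem Tm_inj (y : InfinitePlace K → ℝ) : Function.Injective (Tm y) := by
  intro a b hab
  have h2 : ∀ v : InfinitePlace K, ((Real.exp (y v / 2) : ℝ) : ℂ) ≠ 0 := fun v => by
    exact_mod_cast (Real.exp_pos _).ne'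
  apply Prod.ext
  · funext w
    have h1 := congrFun hab w.1
    rw [Tm_real y _ _ w.2, Tm_real y _ _ w.2] at h1
    exact Complex.ofReal_injective (mul_right_cancel₀ (h2 _) h1)
  · funext w
    have h1 := congrFun hab w.1
    rw [Tm_cplx y _ _ w.2, Tm_cplx y _ _ w.2] at h1
    exact mul_right_cancel₀ (h2 _) h1

theorem Tm_surj (y : InfinitePlace K → ℝ) (ζ : InfinitePlace K → ℂ)
    (hζ : ∀ v, Rl (rv v) (ζ v)) : ∃ x, Tm y x = ζ := by
  refine ⟨(fun w => (ζ w.1).re * Real.exp (-(y w.1 / 2)),
    fun w => ζ w.1 * ((Real.exp (-(y w.1 / 2)) : ℝ) : ℂ)), ?_⟩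
  have h2 : ∀ v : InfinitePlace K, Real.exp (-(y v / 2)) * Real.exp (y v / 2) = 1 := fun v => by
    rw [← Real.exp_add, neg_add_cancel, Real.exp_zero]
  funext v
  rcases v.isReal_or_isComplex with h | h
  · rw [Tm_real y _ v h]
    have hr : rv v = true := by
      simp only [rv, h, decide_true]
    have him : (ζ v).im = 0 := hζ v hr
    have hre : ((ζ v).re : ℂ) = ζ v := by
      apply Complex.ext
      · simp
      · simp [him]
    have h3 : ((Real.exp (-(y v / 2)) : ℝ) : ℂ) * ((Real.exp (y v / 2) : ℝ) : ℂ) = 1 := by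
      exact_mod_cast h2 v
    change (((ζ v).re * Real.exp (-(y v / 2)) : ℝ) : ℂ) * _ = _
    rw [Complex.ofReal_mul, mul_assoc, h3, mul_one, hre]
  · rw [Tm_cplx y _ v h]
    have h3 : ((Real.exp (-(y v / 2)) : ℝ) : ℂ) * ((Real.exp (y v / 2) : ℝ) : ℂ) = 1 := by
      exact_mod_cast h2 v
    change ζ v * _ * _ = _
    rw [mul_assoc, h3, mul_one]

theorem mz_pres (r : Bool) (c : ℂ) (hc : Rl r c) :
    MeasurePreserving (fun w : ℂ => c + w) (mz r) (mz r) := by
  cases r
  · simp only [mz, Bool.false_eq_true, if_false]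
    exact measurePreserving_add_left volume c
  · simp only [mz, if_true]
    have him : c.im = 0 := hc rfl
    have hre : ((c.re : ℝ) : ℂ) = c := by
      apply Complex.ext
      · simp
      · simp [him]
    refine ⟨measurable_const_add c, ?_⟩
    rw [Measure.map_map (measurable_const_add c) Complex.measurable_ofReal]
    have h1 : (fun w : ℂ => c + w) ∘ (fun x : ℝ => (x : ℂ)) =
        (fun x : ℝ => (x : ℂ)) ∘ fun x : ℝ => c.re + x := by
      funext x
      simp only [Function.comp_apply, Complex.ofReal_add, hre]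
    rw [h1, ← Measure.map_map Complex.measurable_ofReal (measurable_const_add c.re),
      (measurePreserving_add_left volume c.re).map_eq]

theorem mz_ae (r : Bool) : ∀ᵐ w ∂mz r, Rl r w := by
  cases r
  · exact Eventually.of_forall fun w h => absurd h (by simp)
  · simp only [mz, if_true]
    have h : MeasurableEmbedding (fun x : ℝ => (x : ℂ)) :=
      Complex.isometry_ofReal.isClosedEmbedding.measurableEmbedding
    rw [h.ae_map_iff]
    exact Eventually.of_forall fun x _ => Complex.ofReal_im x

theorem mK_ae : ∀ᵐ ζ ∂mK K, ∀ v : InfinitePlace K, Rl (rv v) (ζ v) := by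
  rw [ae_all_iff]
  intro v
  exact (Measure.tendsto_eval_ae_ae (μ := fun v : InfinitePlace K => mz (rv v)) (i := v)).eventually
    (mz_ae (rv v))

omit [NumberField K] in
theorem sy_Rl (y : InfinitePlace K → ℝ) (x : K) (v : InfinitePlace K) : Rl (rv v) (sy y x v) := by
  intro h
  have hv : v.IsReal := by
    simpa [rv] using h
  have h1 : sy y x v = ((embedding_of_isReal hv x : ℝ) : ℂ) * ((Real.exp (y v / 2) : ℝ) : ℂ) := by
    rw [embedding_of_isReal_apply]
    rfl
  rw [h1, ← Complex.ofReal_mul]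
  exact Complex.ofReal_im _

theorem mK_pres (c : InfinitePlace K → ℂ) (hc : ∀ v, Rl (rv v) (c v)) :
    MeasurePreserving (fun ζ : InfinitePlace K → ℂ => c + ζ) (mK K) (mK K) :=
  measurePreserving_pi (fun v : InfinitePlace K => mz (rv v)) (fun v => mz (rv v))
    (f := fun v w => c v + w) fun v => mz_pres (rv v) (c v) (hc v)

/-- the ideal as an additive subgroup -/
def Ia (I : FI K) : AddSubgroup K := (I : Submodule (𝓞 K) K).toAddSubgroup

theorem countable_FI (I : FI K) : Countable {x : K // x ∈ I} := by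
  have hK : Countable K := by
    have := (NumberField.to_finiteDimensional : FiniteDimensional ℚ K)
    exact (Module.finBasis ℚ K).equivFun.injective.countable
  infer_instance

theorem pf_K_UF : K_UF := by
  intro K _ _ I y hI
  classical
  let Iu : (FractionalIdeal (𝓞 K)⁰ K)ˣ := Units.mk0 I hI
  let b := mixedEmbedding.fractionalIdealLatticeBasis K Iu
  let D : Set (mixedEmbedding.mixedSpace K) := ZSpan.fundamentalDomain b
  have hTme : MeasurableEmbedding (Tm y) :=
    (LinearMap.isClosedEmbedding_of_injective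
      (LinearMap.ker_eq_bot.2 (Tm_inj y))).measurableEmbedding
  let F : Set (InfinitePlace K → ℂ) := Tm y '' D
  have hFm : MeasurableSet F :=
    hTme.measurableSet_image.2 (ZSpan.fundamentalDomain_measurableSet b)
  let Λ : AddSubgroup (InfinitePlace K → ℂ) := (Ia I).map (sh y)
  have hsp : ∀ x : mixedEmbedding.mixedSpace K,
      x ∈ Submodule.span ℤ (Set.range b) ↔ ∃ a ∈ I, mixedEmbedding K a = x := by
    intro x
    rw [mixedEmbedding.mem_span_fractionalIdealLatticeBasis]
    rfl
  have hcov : ∀ x : mixedEmbedding.mixedSpace K, ∃ a ∈ I, mixedEmbedding K a + x ∈ D := by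
    intro x
    obtain ⟨g, hg, -⟩ := ZSpan.exist_unique_vadd_mem_fundamentalDomain b x
    obtain ⟨a, ha, hax⟩ := (hsp g.1).1 g.2
    refine ⟨a, ha, ?_⟩
    rw [hax]
    exact hg
  have hdis : ∀ a ∈ I, ∀ a' ∈ I, ∀ x : mixedEmbedding.mixedSpace K,
      mixedEmbedding K a + x ∈ D → mixedEmbedding K a' + x ∈ D → a = a' := by
    intro a ha a' ha' x h h'
    obtain ⟨g, -, hg⟩ := ZSpan.exist_unique_vadd_mem_fundamentalDomain b x
    have h1 := hg ⟨mixedEmbedding K a, (hsp _).2 ⟨a, ha, rfl⟩⟩ h
    have h2 := hg ⟨mixedEmbedding K a', (hsp _).2 ⟨a', ha', rfl⟩⟩ h'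
    have h3 := congrArg Subtype.val (h1.trans h2.symm)
    exact (mixedEmbedding_injective K) h3
  have hmem : ∀ a ∈ I, sh y a ∈ Λ := fun a ha => ⟨a, ha, rfl⟩
  have hcI : Countable {x : K // x ∈ I} := countable_FI I
  let e : {x : K // x ∈ I} ≃ Λ := Equiv.ofBijective
    (fun x => ⟨sh y x.1, hmem x.1 x.2⟩) ⟨fun x x' h => Subtype.ext (sh_inj y
      (congrArg Subtype.val h)), fun g => by
      obtain ⟨g, a, ha, rfl⟩ := g
      exact ⟨⟨a, ha⟩, rfl⟩⟩
  have hcL : Countable Λ := Countable.of_equiv _ e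
  have hmc : MeasurableConstVAdd Λ (InfinitePlace K → ℂ) :=
    ⟨fun c => measurable_const_add (c : InfinitePlace K → ℂ)⟩
  have hinv : VAddInvariantMeasure Λ (InfinitePlace K → ℂ) (mK K) := by
    refine ⟨fun c s hs => ?_⟩
    obtain ⟨c, a, ha, rfl⟩ := c
    exact (mK_pres (sh y a) (sy_Rl y a)).measure_preimage hs.nullMeasurableSet
  have hfd : IsAddFundamentalDomain Λ F (mK K) := by
    refine ⟨hFm.nullMeasurableSet, ?_, ?_⟩
    · filter_upwards [mK_ae (K := K)] with ζ hζ
      obtain ⟨x, hx⟩ := Tm_surj y ζ hζ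
      obtain ⟨a, ha, hax⟩ := hcov x
      refine ⟨⟨sh y a, hmem a ha⟩, ⟨mixedEmbedding K a + x, hax, ?_⟩⟩
      rw [map_add, Tm_emb, hx]
      rfl
    · intro g g' hgg
      refine Disjoint.aedisjoint (Set.disjoint_left.2 fun ζ hζ hζ' => ?_)
      rw [Set.mem_vadd_set_iff_neg_vadd_mem] at hζ hζ'
      obtain ⟨g, a, ha, rfl⟩ := g
      obtain ⟨g', a', ha', rfl⟩ := g'
      obtain ⟨d, hd, hdz⟩ := hζ
      obtain ⟨d', hd', hdz'⟩ := hζ'
      have h1 : Tm y d = -(sh y a) + ζ := hdz
      have h2 : Tm y d' = -(sh y a') + ζ := hdz'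
      have h3 : d = mixedEmbedding K (a' - a) + d' := by
        apply Tm_inj y
        rw [map_add, Tm_emb, h1, h2, map_sub]
        abel
      have h4 : d' = mixedEmbedding K 0 + d' := by
        rw [map_zero, zero_add]
      rw [h3] at hd
      rw [h4] at hd'
      have h5 := hdis (a' - a) (I.coeToSubmodule.sub_mem ha' ha) 0 (I.coeToSubmodule.zero_mem)
        d' hd hd'
      have h6 : a' = a := sub_eq_zero.1 h5
      subst h6
      exact hgg rfl
  refine ⟨F, hFm, fun g hg => ?_⟩
  rw [hfd.lintegral_eq_tsum'' g, lintegral_tsum]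
  · rw [← e.tsum_eq]
    refine tsum_congr fun x => lintegral_congr fun ζ => ?_
    congr 1
    funext v
    exact add_comm _ _
  · intro x
    refine (hg.comp ?_).aemeasurable
    exact measurable_pi_lambda _ fun v => (measurable_pi_apply v).add_const _

end NF

end Pool.Agent.H46.BH
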